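import Pool.Agent.Work.MP_db9399_cg.Interface2

/-!
# MP_db9399, SPW / SW, block A6 (helper12): two-step expansion of `S` from the coins (interface v3)
-/

set_option autoImplicit false

namespace Pool.Agent.Work.MP_db9399_cg.helper12

open Finset Classical
open Pool.Agent.Work.MP_db9399_all (nb)

universe u

section

variable {V : Type u} [Fintype V]

theorem mem_nb (G : SimpleGraph V) (v w : V) : w ∈ nb G v ↔ G.Adj v w := by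
  simp [nb]

theorem cdg_nonneg (G : SimpleGraph V) (u w : V) : 0 ≤ cdg G u w := Nat.cast_nonneg _

theorem cdz_nonneg (Z : V → V → Prop) (u w : V) : 0 ≤ cdz Z u w := Nat.cast_nonneg _

theorem cdz_le (G : SimpleGraph V) (Z : V → V → Prop) (h : ∀ v w, Z v w → G.Adj v w) (u w : V) :
    cdz Z u w ≤ cdg G u w := by
  unfold cdz cdg
  refine Nat.cast_le.2 (card_le_card fun y hy => ?_)
  obtain ⟨h1, h2⟩ := (mem_filter.1 hy).2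
  rw [mem_inter, mem_nb, mem_nb]
  exact ⟨h _ _ h1, h _ _ h2⟩

/-- common neighbours outside `K` are common neighbours in `G1` -/
theorem cdg_G1 (G G1 : SimpleGraph V) (K : Finset V)
    (h1 : ∀ v w, G1.Adj v w ↔ G.Adj v w ∧ ¬ (v ∈ K ∧ w ∈ K)) (u w : V) :
    (((nb G u ∩ nb G w) \ K).card : ℝ) ≤ cdg G1 u w := by
  unfold cdg
  refine Nat.cast_le.2 (card_le_card fun y hy => ?_)
  rw [mem_sdiff, mem_inter, mem_nb, mem_nb] at hy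
  rw [mem_inter, mem_nb, mem_nb, h1, h1]
  exact ⟨⟨hy.1.1, fun h => hy.2 h.2⟩, ⟨hy.1.2, fun h => hy.2 h.2⟩⟩

/-- double counting of the paths of length two from `u` to `L` through `A` -/
theorem double (G : SimpleGraph V) (u : V) (A L : Finset V) (hA : A ⊆ nb G u) :
    ∑ y ∈ A, ((nb G y ∩ L).card : ℝ) = ∑ w ∈ L, ((A ∩ nb G w).card : ℝ) := by
  have e1 : ∀ y ∈ A, ((nb G y ∩ L).card : ℝ) = ∑ w ∈ L, if G.Adj y w then (1 : ℝ) else 0 := by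
    intro y _
    rw [sum_boole]
    congr 2
    ext w
    rw [mem_inter, mem_nb, mem_filter]
    tauto
  have e2 : ∀ w ∈ L, ((A ∩ nb G w).card : ℝ) = ∑ y ∈ A, if G.Adj y w then (1 : ℝ) else 0 := by
    intro w _
    rw [sum_boole]
    congr 2
    ext y
    rw [mem_inter, mem_nb, mem_filter, G.adj_comm]
  rw [sum_congr rfl e1, sum_congr rfl e2, sum_comm]

/-- the row of `u` -/
theorem row (G G1 : SimpleGraph V) (d : ℕ) (a κ ρ' b : ℝ) (K : Finset V) (M : Bool → Finset V)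
    (Z : V → V → Prop) (hL : Lab G d a b ρ' K M)
    (h1 : ∀ v w, G1.Adj v w ↔ G.Adj v w ∧ ¬ (v ∈ K ∧ w ∈ K))
    (hZ1 : ∀ v w, Z v w → G1.Adj v w) (u : V) (hC : CoinP G G1 d a κ Z u) (T : Finset V)
    (hu : u ∈ T) :
    κ ^ 2 / 16 * ∑ w ∈ univ \ T, cdg G u w - (κ ^ 2 * ((d : ℝ) ^ (8 / 5 : ℝ) / 8 +
      (d : ℝ) ^ (2 - a)) + T.card * (d : ℝ) ^ (3 * a)) ≤ ∑ w ∈ univ \ T, cdz Z u w := by
  have hκ2 : 0 ≤ κ ^ 2 := sq_nonneg κ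
  have hZG : ∀ v w, Z v w → G.Adj v w := fun v w h => ((h1 v w).1 (hZ1 v w h)).1
  set L := low G d a u with hLdef
  have hmemL : ∀ w, w ∈ L ↔ cdg G u w < (d : ℝ) ^ (3 * a) := fun w => by
    rw [hLdef]; simp [low]
  -- large codegrees
  have hA : ∀ w ∈ (univ \ T) \ L, κ ^ 2 / 16 * cdg G u w ≤ cdz Z u w := by
    intro w hw
    rw [mem_sdiff, hmemL, not_lt] at hw
    have hwT : w ∉ T := (mem_sdiff.1 hw.1).2
    have hne : w ≠ u := fun h => hwT (h ▸ hu)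
    have h2 := (hL.p1 u w hw.2).trans (cdg_G1 G G1 K h1 u w)
    have h3 := hC.iv w hne (by linarith [hw.2])
    have h4 : κ ^ 2 / 8 * (cdg G u w / 2) ≤ κ ^ 2 / 8 * cdg G1 u w :=
      mul_le_mul_of_nonneg_left h2 (by positivity)
    have h5 : κ ^ 2 / 8 * (cdg G u w / 2) = κ ^ 2 / 16 * cdg G u w := by ring
    linarith
  have hA' : κ ^ 2 / 16 * ∑ w ∈ (univ \ T) \ L, cdg G u w ≤ ∑ w ∈ (univ \ T) \ L, cdz Z u w := by
    rw [mul_sum]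
    exact sum_le_sum hA
  -- small codegrees
  have hG : ∑ w ∈ L, cdg G u w = ∑ y ∈ nb G u, ((nb G y ∩ L).card : ℝ) := by
    rw [double G u (nb G u) L (Subset.refl _)]
    rfl
  have hG1 : ∑ y ∈ nb G u \ K, ((nb G y ∩ L).card : ℝ) ≤ ∑ w ∈ L, cdg G1 u w := by
    rw [double G u (nb G u \ K) L sdiff_subset]
    refine sum_le_sum fun w _ => ?_
    refine le_trans (le_of_eq ?_) (cdg_G1 G G1 K h1 u w)
    congr 2
    ext y
    simp only [mem_inter, mem_sdiff]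
    tauto
  have hB := hL.p2 u
  rw [← hLdef, ← hG] at hB
  have hB2 : (∑ w ∈ L, cdg G u w) / 2 - (d : ℝ) ^ (8 / 5 : ℝ) ≤ ∑ w ∈ L, cdg G1 u w :=
    hB.trans hG1
  have hC5 := hC.v
  rw [← hLdef] at hC5
  have hD : κ ^ 2 / 8 * ((∑ w ∈ L, cdg G u w) / 2 - (d : ℝ) ^ (8 / 5 : ℝ)) ≤
      κ ^ 2 / 8 * ∑ w ∈ L, cdg G1 u w := mul_le_mul_of_nonneg_left hB2 (by positivity)
  have hE : ∑ w ∈ (univ \ T) ∩ L, cdg G u w ≤ ∑ w ∈ L, cdg G u w :=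
    sum_le_sum_of_subset_of_nonneg inter_subset_right fun w _ _ => cdg_nonneg G u w
  have hE' : κ ^ 2 / 16 * ∑ w ∈ (univ \ T) ∩ L, cdg G u w ≤ κ ^ 2 / 16 * ∑ w ∈ L, cdg G u w :=
    mul_le_mul_of_nonneg_left hE (by positivity)
  have hF : ∑ w ∈ L, cdz Z u w = ∑ w ∈ (univ \ T) ∩ L, cdz Z u w + ∑ w ∈ T ∩ L, cdz Z u w := by
    rw [← sum_union]
    · congr 1
      ext w
      simp only [mem_union, mem_inter, mem_sdiff, mem_univ, true_and]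
      tauto
    · refine Finset.disjoint_left.2 fun w h2 h3 => ?_
      exact (mem_sdiff.1 (mem_inter.1 h2).1).2 (mem_inter.1 h3).1
  have hTL : ∑ w ∈ T ∩ L, cdz Z u w ≤ T.card * (d : ℝ) ^ (3 * a) := by
    calc ∑ w ∈ T ∩ L, cdz Z u w ≤ ∑ _w ∈ T ∩ L, (d : ℝ) ^ (3 * a) := by
          refine sum_le_sum fun w hw => ?_
          exact (cdz_le G Z hZG u w).trans ((hmemL w).1 (mem_inter.1 hw).2).le
      _ = ((T ∩ L).card : ℝ) * (d : ℝ) ^ (3 * a) := by rw [sum_const, nsmul_eq_mul]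
      _ ≤ T.card * (d : ℝ) ^ (3 * a) := by
          refine mul_le_mul_of_nonneg_right ?_ (by positivity)
          exact_mod_cast card_le_card inter_subset_left
  have hs1 := sum_inter_add_sum_sdiff (univ \ T) L (fun w => cdg G u w)
  have hs2 := sum_inter_add_sum_sdiff (univ \ T) L (fun w => cdz Z u w)
  rw [← hs1, ← hs2]
  have e1 : κ ^ 2 / 8 * ((∑ w ∈ L, cdg G u w) / 2 - (d : ℝ) ^ (8 / 5 : ℝ)) =
      κ ^ 2 / 16 * ∑ w ∈ L, cdg G u w - κ ^ 2 * ((d : ℝ) ^ (8 / 5 : ℝ) / 8) := by ring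
  have e2 : κ ^ 2 / 16 * (∑ w ∈ (univ \ T) ∩ L, cdg G u w + ∑ w ∈ (univ \ T) \ L, cdg G u w) =
      κ ^ 2 / 16 * ∑ w ∈ (univ \ T) ∩ L, cdg G u w +
        κ ^ 2 / 16 * ∑ w ∈ (univ \ T) \ L, cdg G u w := by ring
  have e3 : κ ^ 2 * ((d : ℝ) ^ (8 / 5 : ℝ) / 8 + (d : ℝ) ^ (2 - a)) =
      κ ^ 2 * ((d : ℝ) ^ (8 / 5 : ℝ) / 8) + κ ^ 2 * (d : ℝ) ^ (2 - a) := by ring
  rw [e2, e3]
  rw [e1] at hD
  linarith

end

theorem stmt_A6 : Stmt_A6.{u} := by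
  intro a MS ha ha1 hMS
  refine ⟨⌈max 1 (max (MS ^ 2) ((75 : ℝ) ^ (2 / a)))⌉₊, ?_⟩
  intro V _ G G1 S d f κ g ρ' K M Z hd hreg hLab hg1 hgd hex hG1 hZs hZ1 hZS hf hf1 hκ1 hκ2 hC
    T hT
  have hdd : max 1 (max (MS ^ 2) ((75 : ℝ) ^ (2 / a))) ≤ (d : ℝ) := Nat.ceil_le.1 hd
  have hd1 : (1 : ℝ) ≤ d := (le_max_left _ _).trans hdd
  have hdM : MS ^ 2 ≤ (d : ℝ) := ((le_max_left _ _).trans (le_max_right _ _)).trans hdd
  have hd75 : (75 : ℝ) ^ (2 / a) ≤ (d : ℝ) :=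
    ((le_max_right _ _).trans (le_max_right _ _)).trans hdd
  have hd0 : (0 : ℝ) < d := by linarith
  have hg0 : 0 < g := lt_of_lt_of_le (Real.rpow_pos_of_pos hd0 _) hgd
  have hκ0 : 0 < κ := lt_of_lt_of_le (Real.rpow_pos_of_pos hd0 _) hκ1
  set t : ℝ := (T.card : ℝ) with ht
  have ht0 : 0 ≤ t := Nat.cast_nonneg _
  -- powers of `d`
  have hp1 : (d : ℝ) ^ (8 / 5 : ℝ) ≤ (d : ℝ) ^ (2 - a) :=
    Real.rpow_le_rpow_of_exponent_le hd1 (by linarith)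
  have hp2 : (d : ℝ) ^ (2 - a) = (d : ℝ) ^ 2 * (d : ℝ) ^ (-a) := by
    rw [sub_eq_add_neg, Real.rpow_add hd0]
    norm_num
  have hp3 : MS * d * (d : ℝ) ^ (3 * a) ≤ κ ^ 2 * (d : ℝ) ^ (2 - a) := by
    have h1 : MS ≤ (d : ℝ) ^ (1 / 2 : ℝ) := by
      rw [← Real.sqrt_eq_rpow]
      exact Real.le_sqrt_of_sq_le hdM
    have h2 : (d : ℝ) ^ (1 / 2 : ℝ) * d * (d : ℝ) ^ (3 * a) =
        (d : ℝ) ^ (1 / 2 + 1 + 3 * a : ℝ) := by
      rw [Real.rpow_add hd0, Real.rpow_add hd0, Real.rpow_one]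
    have h3 : ((d : ℝ) ^ (-a)) ^ 2 * (d : ℝ) ^ (2 - a) = (d : ℝ) ^ (-a + -a + (2 - a)) := by
      rw [Real.rpow_add hd0, Real.rpow_add hd0, sq]
    have h4 : (d : ℝ) ^ (1 / 2 + 1 + 3 * a : ℝ) ≤ (d : ℝ) ^ (-a + -a + (2 - a)) :=
      Real.rpow_le_rpow_of_exponent_le hd1 (by linarith)
    have h5 : ((d : ℝ) ^ (-a)) ^ 2 ≤ κ ^ 2 :=
      pow_le_pow_left₀ (Real.rpow_nonneg hd0.le _) hκ1 2
    calc MS * d * (d : ℝ) ^ (3 * a) ≤ (d : ℝ) ^ (1 / 2 : ℝ) * d * (d : ℝ) ^ (3 * a) := by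
          refine mul_le_mul_of_nonneg_right ?_ (Real.rpow_nonneg hd0.le _)
          exact mul_le_mul_of_nonneg_right h1 hd0.le
      _ = (d : ℝ) ^ (1 / 2 + 1 + 3 * a : ℝ) := h2
      _ ≤ (d : ℝ) ^ (-a + -a + (2 - a)) := h4
      _ = ((d : ℝ) ^ (-a)) ^ 2 * (d : ℝ) ^ (2 - a) := h3.symm
      _ ≤ κ ^ 2 * (d : ℝ) ^ (2 - a) :=
          mul_le_mul_of_nonneg_right h5 (Real.rpow_nonneg hd0.le _)
  have hp4 : 75 * (d : ℝ) ^ (-a) ≤ g := by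
    refine le_trans ?_ hgd
    have h1 : (75 : ℝ) ≤ (d : ℝ) ^ (a / 2) := by
      have h2 : ((75 : ℝ) ^ (2 / a)) ^ (a / 2) ≤ (d : ℝ) ^ (a / 2) :=
        Real.rpow_le_rpow (Real.rpow_nonneg (by norm_num) _) hd75 (by positivity)
      rw [← Real.rpow_mul (by norm_num)] at h2
      have h3 : 2 / a * (a / 2) = 1 := by field_simp
      rwa [h3, Real.rpow_one] at h2
    calc 75 * (d : ℝ) ^ (-a) ≤ (d : ℝ) ^ (a / 2) * (d : ℝ) ^ (-a) :=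
          mul_le_mul_of_nonneg_right h1 (Real.rpow_nonneg hd0.le _)
      _ = (d : ℝ) ^ (a / 2 + -a) := by rw [Real.rpow_add hd0]
      _ ≤ (d : ℝ) ^ (-(a / 200)) := Real.rpow_le_rpow_of_exponent_le hd1 (by linarith)
  -- the rows
  have hrow : ∀ u ∈ T, κ ^ 2 / 16 * ∑ w ∈ univ \ T, cdg G u w - 3 * (κ ^ 2 * (d : ℝ) ^ (2 - a)) ≤
      ∑ w ∈ univ \ T, cdg S u w := by
    intro u hu
    have h1 := row G G1 d a κ ρ' (1 / 64) K M Z hLab hG1 hZ1 u (hC u) T hu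
    have h2 : ∑ w ∈ univ \ T, cdz Z u w ≤ ∑ w ∈ univ \ T, cdg S u w :=
      sum_le_sum fun w _ => cdz_le S Z hZS u w
    have h3 : t * (d : ℝ) ^ (3 * a) ≤ κ ^ 2 * (d : ℝ) ^ (2 - a) :=
      (mul_le_mul_of_nonneg_right hT (Real.rpow_nonneg hd0.le _)).trans hp3
    have h4 : κ ^ 2 * ((d : ℝ) ^ (8 / 5 : ℝ) / 8 + (d : ℝ) ^ (2 - a)) ≤
        κ ^ 2 * (2 * (d : ℝ) ^ (2 - a)) := by
      refine mul_le_mul_of_nonneg_left ?_ (by positivity)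
      have : 0 ≤ (d : ℝ) ^ (8 / 5 : ℝ) := Real.rpow_nonneg hd0.le _
      linarith
    linarith
  have hsum := sum_le_sum hrow
  rw [sum_sub_distrib, ← mul_sum, sum_const, nsmul_eq_mul] at hsum
  have hE := hex T hT
  have hE2 : g * t * (d : ℝ) ^ 2 ≤ ∑ u ∈ T, ∑ w ∈ univ \ T, cdg G u w := by
    have h1 : ∑ u ∈ T, ∑ w ∈ univ \ T, cdg G u w / (d : ℝ) ^ 2 =
        (∑ u ∈ T, ∑ w ∈ univ \ T, cdg G u w) / (d : ℝ) ^ 2 := by
      rw [sum_div]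
      refine sum_congr rfl fun u _ => ?_
      rw [sum_div]
    rw [h1, le_div_iff₀ (by positivity)] at hE
    exact hE
  have hlow : κ ^ 2 * (d : ℝ) ^ 2 * t * g * (9 / 400) ≤ ∑ u ∈ T, ∑ w ∈ univ \ T, cdg S u w := by
    refine le_trans ?_ hsum
    have h1 : κ ^ 2 / 16 * (g * t * (d : ℝ) ^ 2) ≤
        κ ^ 2 / 16 * ∑ u ∈ T, ∑ w ∈ univ \ T, cdg G u w :=
      mul_le_mul_of_nonneg_left hE2 (by positivity)
    rw [hp2]
    have h2 : κ ^ 2 * (d : ℝ) ^ 2 * t * (75 * (d : ℝ) ^ (-a)) ≤ κ ^ 2 * (d : ℝ) ^ 2 * t * g :=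
      mul_le_mul_of_nonneg_left hp4 (by positivity)
    have h3 : t * (3 * (κ ^ 2 * ((d : ℝ) ^ 2 * (d : ℝ) ^ (-a)))) =
        κ ^ 2 * (d : ℝ) ^ 2 * t * (75 * (d : ℝ) ^ (-a)) * (1 / 25) := by ring
    have h4 : κ ^ 2 / 16 * (g * t * (d : ℝ) ^ 2) = κ ^ 2 * (d : ℝ) ^ 2 * t * g * (1 / 16) := by ring
    rw [h3]
    linarith
  -- the normalisation
  have hf1' : (1 : ℝ) ≤ f := by exact_mod_cast hf1
  have hR : ((2 * f + 1 : ℕ) : ℝ) ^ 2 ≤ κ ^ 2 * (d : ℝ) ^ 2 * (9 / 4) := by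
    have h1 : ((2 * f + 1 : ℕ) : ℝ) ≤ 3 / 2 * (κ * d) := by
      push_cast
      linarith
    calc ((2 * f + 1 : ℕ) : ℝ) ^ 2 ≤ (3 / 2 * (κ * d)) ^ 2 :=
          pow_le_pow_left₀ (Nat.cast_nonneg _) h1 2
      _ = κ ^ 2 * (d : ℝ) ^ 2 * (9 / 4) := by ring
  have h1 : ∑ u ∈ T, ∑ w ∈ univ \ T, cdg S u w / ((2 * f + 1 : ℕ) : ℝ) ^ 2 =
      (∑ u ∈ T, ∑ w ∈ univ \ T, cdg S u w) / ((2 * f + 1 : ℕ) : ℝ) ^ 2 := by
    rw [sum_div]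
    refine sum_congr rfl fun u _ => ?_
    rw [sum_div]
  have hR0 : (0 : ℝ) < ((2 * f + 1 : ℕ) : ℝ) ^ 2 := by positivity
  rw [h1, le_div_iff₀ hR0]
  refine le_trans ?_ hlow
  calc g / 100 * t * ((2 * f + 1 : ℕ) : ℝ) ^ 2 ≤ g / 100 * t * (κ ^ 2 * (d : ℝ) ^ 2 * (9 / 4)) :=
        mul_le_mul_of_nonneg_left hR (by positivity)
    _ = κ ^ 2 * (d : ℝ) ^ 2 * t * g * (9 / 400) := by ring

end Pool.Agent.Work.MP_db9399_cg.helper12
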